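import Mathlib
import Pool.Agent.H82.NP.Main

/-!
# MP_ff17e6_an, Q1 for every `n` and every `p` in an interval `(1, p_n)`

Definitions used in the statement (`Pool/Agent/H82/Hp/Basic.lean`, `Pool/Agent/H82/Hp/Ext.lean`):
`co f k` is the `k`-th Taylor coefficient of `f` at `0`, `Mp p f` is `M_p(f)`, `Np p` is the class
`N_p` and `Fext p n c γ` is the function `F_{c,γ}`.

Outline of the proof (`s = 1 / p`, `ε₀ = 1 - log 2`).
* The logarithmic coefficients `c_0, …, c_n` of the members of `N_p` lie in the convex set `CC n s` of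
  all sequences satisfying the Gibbs inequalities `Re ∑ c_k τ_k ≤ s Ent(T_τ)` for all nonnegative
  trigonometric polynomials `T_τ` of degree `n` and mean one. On this set `|a_n|` has a maximiser,
  whose kernel `T = ∑ (a_{n-|k|} / a_n) z^k` is nonnegative, `T = |G|²` with `G` zero-free in the disc,
  and `c_k = s λ_k - 2 ∑ r_i ζ̄_i^k` with `λ` the coefficients of `2 log G` and atoms `ζ_i` at zeros
  of `T` (Lagrange conditions).
* Entropy inequality: if all zeros of `G`, `deg G = n`, lie on the circle and `‖G‖₂ = 1`, then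
  `Ent(|G|²) ≥ ε₀ + (2 / 3n) ∑ (j / n)(1 - j / n) |g_j|²`. Here `G = A + B` with `A = z G' / n` and
  `b = A / B` is a Blaschke product; the Gibbs inequality is used with the density `|1 + b|² / 2`, and
  the moments of `b` against `|B|²` are bounded by a weighted contraction inequality.
* At `s = 1` all zeros of the optimal `G` are on the circle. A key inequality between the atoms and the
  zeros outside the closed disc shows by compactness that this persists for `s` close to `1`, or the
  entropy exceeds `ε₀`. So `Ent(T) ≥ ε₀` for all `s` close to one, and the envelope inequality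
  integrates this to `|a_n| ≤ exp(-(1 - s) ε₀) = (2 / e)^{1 / q}`. In the case of equality
  `a_k = 0` for `0 < k < n`, and the sparse case (`Pool/Agent/H82/Hp/Main.lean`) gives `F_{c,γ}`.
-/

set_option autoImplicit false

namespace Pool.Agent.Results.MP_ff17e6_an.NearOne

open Metric Set Pool.Agent.H82.Hp

/-- **Coefficients of non-vanishing `H^p` functions, `p` near one.** For every `n ≥ 1` there is
`p₀ > 1` such that for every `1 < p < p₀` the maximum of `|a_n|` over `N_p` is `(2/e)^{1/q}`,
`1/p + 1/q = 1`, and it is attained exactly by the functions `F_{c,γ}`, `|c| = |γ| = 1`. -/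
theorem result : ∀ n : ℕ, 1 ≤ n → ∃ p₀ : ℝ, 1 < p₀ ∧ ∀ p q : ℝ, 1 < p → p < p₀ →
    1 / p + 1 / q = 1 →
    IsGreatest ((fun f => ‖co f n‖) '' Np p) ((2 / Real.exp 1) ^ (1 / q)) ∧
    ∀ f ∈ Np p, ‖co f n‖ = (2 / Real.exp 1) ^ (1 / q) ↔
      ∃ c γ : ℂ, ‖c‖ = 1 ∧ ‖γ‖ = 1 ∧ EqOn f (Fext p n c γ) (ball 0 1) :=
  Pool.Agent.H82.NP.finT

end Pool.Agent.Results.MP_ff17e6_an.NearOne
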