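import Mathlib
import Pool.Agent.H82.Hp.Main

/-!
# MP_ff17e6_an, Q1 for `n = 2` and every `p`, and for every `n` when `a_k = 0` for `1 ≤ k < n / 2`

Definitions used in the statement (`Pool/Agent/H82/Hp/Basic.lean`, `Pool/Agent/H82/Hp/Ext.lean`):
`co f k` is the `k`-th Taylor coefficient of `f` at `0`, `Mp p f` is `M_p(f)`, `Np p` is the class
`N_p` and `Fext p n c γ` is the function `F_{c,γ}`.

Outline of the proof. Write `f = exp h` with `h = ∑ c_k z^k`. For a polynomial
`P = 1 + u α z^m + v β z^n`, zero-free in the disc (`n = 2 m`, `β = α ^ 2`), the Gibbs inequality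
with the density `|P|² / ‖P‖²` gives a linear inequality between `Re c_0`, `Re (ᾱ c_m)` and
`Re (β̄ c_n)`, in which the logarithmic coefficients of `P` are explicit. Here
`a_n = e^{c_0} (c_n + c_m² / 2)`. With `X = Re (ᾱ c_m) / 2` one takes `(u, v) = (X, 1)` if `X ≤ 2`
and `(u, v) = (1 + r, r)`, `2 r X = (1 + r)²`, if `X > 2`; the bound is affine in `1 / p` and at
both ends it reduces to an inequality in one variable. In the case of equality all the slacks vanish;
the stability of the Gibbs inequality then gives a linear recurrence for the Fourier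
coefficients of `log |f|`, whose bounded solution is unique.
-/

set_option autoImplicit false

namespace Pool.Agent.Results.MP_ff17e6_an.SecondCoefficient

open Metric Set Pool.Agent.H82.Hp

/-- The functions of `N_p` with `a_k = 0` for all `1 ≤ k < n / 2` (no condition if `n ≤ 2`). -/
def NpS (p : ℝ) (n : ℕ) : Set (ℂ → ℂ) := {f | f ∈ Np p ∧ ∀ k, 1 ≤ k → 2 * k < n → co f k = 0}

/-- **Coefficients of non-vanishing `H^p` functions.** Let `1 < p`, `1/p + 1/q = 1` and `n ≥ 1`.
Among the functions of `N_p` with `a_k = 0` for `1 ≤ k < n / 2` the maximum of `|a_n|` is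
`(2/e)^{1/q}`, and it is attained exactly by the functions `F_{c,γ}`, `|c| = |γ| = 1`. For `n = 2`
this class is the whole of `N_p`. -/
theorem result (p q : ℝ) (hp : 1 < p) (hpq : 1 / p + 1 / q = 1) :
    (∀ n : ℕ, 1 ≤ n →
      IsGreatest ((fun f => ‖co f n‖) '' NpS p n) ((2 / Real.exp 1) ^ (1 / q)) ∧
      ∀ f ∈ NpS p n, ‖co f n‖ = (2 / Real.exp 1) ^ (1 / q) ↔
        ∃ c γ : ℂ, ‖c‖ = 1 ∧ ‖γ‖ = 1 ∧ EqOn f (Fext p n c γ) (ball 0 1)) ∧
    NpS p 2 = Np p := by
  refine ⟨fun n hn => ⟨⟨?_, ?_⟩, ?_⟩, ?_⟩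
  · have h1 : ‖(1 : ℂ)‖ = 1 := norm_one
    obtain ⟨h2, h3⟩ := co_Fext hp hn h1 h1
    refine ⟨Fext p n 1 1, ⟨mem_Np_hF hp hn h1 h1, fun k hk1 hk2 => h2 k hk1 (by omega)⟩, ?_⟩
    simp only
    rw [h3, value_eq hpq]
  · rintro _ ⟨f, ⟨hf, hs⟩, rfl⟩
    simp only
    rw [value_eq hpq]
    exact (sparse hp hn hf hs).1
  · rintro f ⟨hf, hs⟩
    rw [value_eq hpq]
    exact (sparse hp hn hf hs).2
  · ext f
    refine ⟨fun h => h.1, fun h => ⟨h, fun k hk1 hk2 => ?_⟩⟩
    omega

end Pool.Agent.Results.MP_ff17e6_an.SecondCoefficient
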