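import Mathlib
import Pool.Agent.H8.HS.Final

/-!
# MP_ff17e6_an, Q1 for `n = 3` and every `p`

Definitions used in the statement (`Pool/Agent/H82/Hp/Basic.lean`, `Pool/Agent/H82/Hp/Ext.lean`):
`co f k` is the `k`-th Taylor coefficient of `f` at `0`, `Mp p f` is `M_p(f)`, `Np p` is the class
`N_p` and `Fext p n c γ` is the function `F_{c,γ}`.

Outline of the proof. Let `S = 1 + s₁ z + s₂ z² + …` be the square root of `f / f(0)`, let `|α| = 1`
and `a_3 / a_0 = |a_3 / a_0| α`.
* If `G = 1 + s₁ z + α conj s₁ z² + α z³` has all its zeros on the circle, then `T = |G|² / ‖G‖²`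
  reproduces the coefficients of `f` up to `1`, and the Gibbs inequality with the density `T` gives
  `|a_3| ≤ exp (-(1 - 1/p) ∫ T log T)`; the entropy of such a `T` is at least `1 - log 2`
  (`Core.lean`, `Main.lean`, `Suff.lean`).
* If `G` has a zero off the circle, then (`Surj.lean`) `s₁ = μ (1 + r coth r) + α μ⁻² r / sinh r` with
  `r > 0`, `|μ| = 1`. With `a = α μ⁻³`, `g = e^{-r}`, `b = r / sinh r` the density `T` is proportional to
  `|1 + w|² |1 + b (g + a) w + a g w²|²`, `w = μ z`. Gibbs gives `|a_3| ≤ exp (Ent(T) / p - F₁(T))`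
  (`Fib.lean`). Multiplication by the singular inner function `exp (-r (1 - w) / (1 + w))` is a
  contraction, and this gives `Ent(T) ≤ F₁(T)` (`Bes.lean`, `Three.lean`); and `1 - log 2 < F₁(T)` is
  an inequality in `r` and `Re a`, which by the strong convexity of `x log x` reduces to `a = ±1`
  (`Ineq.lean`, `Comb.lean`).
-/

set_option autoImplicit false

namespace Pool.Agent.Results.MP_ff17e6_an.ThirdCoefficient

open Metric Set Pool.Agent.H82.Hp Pool.Agent.H8.HS

/-- **Coefficients of non-vanishing `H^p` functions.** Let `1 < p` and `1/p + 1/q = 1`. Then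
`A_3(p) = (2/e)^{1/q}`, and the extremal functions are exactly the `F_{c,γ}`, `|c| = |γ| = 1`. -/
theorem result (p q : ℝ) (hp : 1 < p) (hpq : 1 / p + 1 / q = 1) :
    IsGreatest ((fun f => ‖co f 3‖) '' Np p) ((2 / Real.exp 1) ^ (1 / q)) ∧
      ∀ f ∈ Np p, ‖co f 3‖ = (2 / Real.exp 1) ^ (1 / q) ↔
        ∃ c γ : ℂ, ‖c‖ = 1 ∧ ‖γ‖ = 1 ∧ EqOn f (Fext p 3 c γ) (ball 0 1) :=
  three_result hp hpq

end Pool.Agent.Results.MP_ff17e6_an.ThirdCoefficient
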