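import Mathlib
import Pool.Agent.H82.UB.Main

/-!
# MP_ff17e6_an: a uniform bound for `A_n(p)`, every `n` and every `p`

Definitions used in the statement (`Pool/Agent/H82/Hp/Basic.lean`, `Pool/Agent/H82/Hp/Ext.lean`):
`co f k` is the `k`-th Taylor coefficient of `f` at `0`, `Mp p f` is `M_p(f)` and `Np p` is the
class `N_p`.

Outline of the proof (`s = 1 / p`). A maximiser of `|a_n|` over the class of exponent `s` has a
kernel `T = |G|²`, `‖G‖₂ = 1`, `G` a polynomial of degree at most `n` without zeros in the disc, and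
atoms of mass `r_i` at zeros `ζ_i` of `G` on the circle (Lagrange conditions, see `NearOne`). By the
envelope inequality and telescoping in `s`, a lower bound `κ ≤ ∫ T log T` at all these maximisers gives
`|a_n| ≤ exp(-(1 - s) κ)`. Put `H = 1 - 2 z G' / (n G)` (real part `x ≥ 0` on the circle),
`ρ = (2 / n) ∑ r_i / |z - ζ_i|²` and `W = ρ + 2 s |z G' / (n G)|²`.
* The Lagrange conditions give `x ≤ ρ`, `(1 + |H|²) / 2 ≤ W` and `∫ W T ≤ 1` (`UB/RT.lean`).
* For every positive combination `ρ` of `|z - ζ_i|⁻²` and every `B > 0`, the mean `v` of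
  `V = B / (ρ + B)` satisfies `3 v² - v³ ≤ 2 ∫ V²` (`S1.lean`); and `∫ Re 1 / (2 + H) = 1 / 3`.
* An elementary inequality (`UB/CERT.lean`) bounds `32 / (4 + W) + (27 - 90 V + 64 V²) / 10` by
  `3 + 9 Re 1 / (2 + H)`, with `B = 2`. Integration gives `∫ 1 / (4 + W) ≤ 3 / 16`, and the Gibbs
  inequality with the weight `1 / (4 + W)` gives `∫ T log T ≥ log (16 / 15)`.
-/

set_option autoImplicit false

namespace Pool.Agent.Results.MP_ff17e6_an.UniformBound

open Metric Set Pool.Agent.H82.Hp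

/-- **A uniform bound for the coefficients of non-vanishing `H^p` functions.** For all `n ≥ 1` and
`1 < p < ∞`, `1/p + 1/q = 1`, every `f ∈ N_p` satisfies `|a_n| ≤ (15/16)^{1/q}`. -/
theorem result : ∀ (n : ℕ) (p q : ℝ), 1 ≤ n → 1 < p → 1 / p + 1 / q = 1 → ∀ f ∈ Np p,
    ‖co f n‖ ≤ (15 / 16) ^ (1 / q) :=
  Pool.Agent.H82.UB.uniT

end Pool.Agent.Results.MP_ff17e6_an.UniformBound
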